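import Pool.Agent.MT100GO.Stmts
import Pool.Agent.Helper46_MTGO.PosE
import Pool.Agent.Helper46_MTG.Stab
import Pool.Agent.Helper64_MTB.Gen

/-! MT100GO, module HDF: the connected group of similitudes of a symmetric form. -/

set_option autoImplicit false
set_option linter.unusedSectionVars false

namespace Pool.Agent.MT100GO.H46

open MvPolynomial Matrix Module Pool.Agent.Helper78_MT Pool.Agent.Helper3_MT
  Pool.Agent.Helper46_MT Pool.Agent.MT100 Pool.Agent.MT100G Pool.Agent.MT100G.H46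

variable {n : Type*} [Fintype n] [DecidableEq n] {w : ℕ} {E : Matrix n n ℚ}
  {π : ℕ → Matrix n n ℂ} {V : ℕ → Submodule ℂ (n → ℂ)} {I : Set (MvPolynomial (n × n) ℚ)}

/-- the determinant as a polynomial -/
noncomputable def dp (n : Type*) [Fintype n] [DecidableEq n] : MvPolynomial (n × n) ℚ :=
  (Matrix.of (fun i j => (MvPolynomial.X (i, j) : MvPolynomial (n × n) ℚ))).det

theorem pev_dp {L : Type*} [Field L] [Algebra ℚ L] (M : Matrix n n L) : pev M (dp n) = M.det := by
  unfold dp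
  rw [AlgHom.map_det]
  congr 1
  ext i j
  simp [pev]

/-- transfer to all fields of characteristic zero -/
theorem transfer_gen {A : Set (MvPolynomial (n × n) ℚ)} (h : zeros A ℂ ⊆ zeros I ℂ) (K : Type*)
    [Field K] [CharZero K] : zeros A K ⊆ zeros I K := by
  intro X hX
  refine ⟨hX.1, fun p hp => ?_⟩
  have hrad : p * dp n ∈ (Ideal.span A).radical := by
    rw [← vanishingIdeal_zeroLocus_eq_radical (K := ℂ), mem_vanishingIdeal_iff]
    intro x hx
    obtain ⟨M, hM⟩ : ∃ M : Matrix n n ℂ, M = Matrix.of (fun i j => x (i, j)) := ⟨_, rfl⟩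
    have hMx : ∀ q : MvPolynomial (n × n) ℚ, aeval x q = pev M q := by
      intro q
      rw [hM]
      rfl
    rw [hMx, map_mul, pev_dp]
    by_cases hd : M.det = 0
    · rw [hd, mul_zero]
    · have h1 : M ∈ zeros A ℂ := by
        refine ⟨isUnit_iff_ne_zero.2 hd, fun q hq => ?_⟩
        rw [← hMx]
        exact hx q (Ideal.subset_span hq)
      rw [(h h1).2 p hp, zero_mul]
  obtain ⟨N, hN⟩ := hrad
  have h1 : ∀ q ∈ Ideal.span A, pev X q = 0 := by
    intro q hq
    induction hq using Submodule.span_induction with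
    | mem q hq => exact hX.2 q hq
    | zero => exact map_zero _
    | add a b _ _ ha hb => rw [map_add, ha, hb, add_zero]
    | smul a b _ hb => rw [smul_eq_mul, map_mul, hb, mul_zero]
  have h2 := h1 _ hN
  rw [map_pow, map_mul] at h2
  have h3 := eq_zero_of_pow_eq_zero h2
  rw [pev_dp] at h3
  exact (mul_eq_zero.1 h3).resolve_right hX.1.ne_zero

/-- equations of `simO` -/
def simOEqs (E : Matrix n n ℚ) : Set (MvPolynomial (n × n) ℚ) :=
  simEqs E ∪ {p | Even (Fintype.card n) ∧ ∃ i j, E i j ≠ 0 ∧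
    p = dp n * C (E i j) ^ (Fintype.card n / 2) - quad E i j ^ (Fintype.card n / 2)}

theorem pev_dq {L : Type*} [Field L] [CharZero L] (M : Matrix n n L) (i j : n) (k : ℕ) :
    pev M (dp n * C (E i j) ^ k - quad E i j ^ k) = M.det * (algebraMap ℚ L (E i j)) ^ k -
      ((Mᵀ * E.map (algebraMap ℚ L) * M) i j) ^ k := by
  rw [map_sub, map_mul, map_pow, map_pow, pev_dp, pev_C, pev_quad]

theorem zeros_simO (hE0 : E ≠ 0) (L : Type*) [Field L] [CharZero L] :
    zeros (simOEqs E) L = simO E L := by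
  have hex : ∃ k l, E k l ≠ 0 := by
    by_contra hcon
    simp only [not_exists, not_not] at hcon
    exact hE0 (by ext i j; exact hcon i j)
  ext M
  constructor
  · rintro ⟨hM, hMp⟩
    have h1 : M ∈ zeros (simEqs E) L := ⟨hM, fun p hp => hMp p (Or.inl hp)⟩
    rw [zeros_sim hE0] at h1
    obtain ⟨-, c, hc⟩ := h1
    refine ⟨hM, c, hc, fun he => ?_⟩
    obtain ⟨i, j, hij⟩ := hex
    have h2 := hMp _ (Or.inr ⟨he, i, j, hij, rfl⟩)
    rw [pev_dq, hc, sub_eq_zero, Matrix.smul_apply, Matrix.map_apply, smul_eq_mul, mul_pow] at h2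
    exact mul_right_cancel₀ (pow_ne_zero _ ((map_ne_zero _).2 hij)) h2
  · rintro ⟨hM, c, hc, hd⟩
    refine ⟨hM, ?_⟩
    rintro p (hp | ⟨he, i, j, hij, rfl⟩)
    · have h1 : M ∈ similitudes E L := ⟨hM, c, hc⟩
      rw [← zeros_sim hE0] at h1
      exact h1.2 p hp
    · rw [pev_dq, hc, Matrix.smul_apply, Matrix.map_apply, smul_eq_mul, mul_pow, hd he, sub_self]

theorem simO_mul {L : Type*} [Field L] [CharZero L] {X Y : Matrix n n L}
    (hX : X ∈ simO E L) (hY : Y ∈ simO E L) : X * Y ∈ simO E L := by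
  obtain ⟨hX, c, hc, hcd⟩ := hX
  obtain ⟨hY, e, he, hed⟩ := hY
  refine ⟨?_, c * e, ?_, fun hev => ?_⟩
  · rw [det_mul]; exact hX.mul hY
  · have : (X * Y)ᵀ * E.map (algebraMap ℚ L) * (X * Y) =
        Yᵀ * (Xᵀ * E.map (algebraMap ℚ L) * X) * Y := by
      rw [transpose_mul]; simp only [mul_assoc]
    rw [this, hc, mul_smul_comm, smul_mul_assoc, he, smul_smul]
  · rw [det_mul, hcd hev, hed hev, mul_pow]

theorem simO_inv (hE0 : E ≠ 0) {L : Type*} [Field L] [CharZero L]
    {X : Matrix n n L} (hX : X ∈ simO E L) : X⁻¹ ∈ simO E L := by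
  obtain ⟨hX, c, hc, hcd⟩ := hX
  have h1 : X * X⁻¹ = 1 := mul_nonsing_inv X hX
  have h1t : (X⁻¹)ᵀ * Xᵀ = 1 := by rw [← transpose_mul, h1, transpose_one]
  have h2 : E.map (algebraMap ℚ L) = c • ((X⁻¹)ᵀ * E.map (algebraMap ℚ L) * X⁻¹) := by
    calc E.map (algebraMap ℚ L)
        = ((X⁻¹)ᵀ * Xᵀ) * E.map (algebraMap ℚ L) * (X * X⁻¹) := by rw [h1, h1t, one_mul, mul_one]
      _ = (X⁻¹)ᵀ * (Xᵀ * E.map (algebraMap ℚ L) * X) * X⁻¹ := by simp only [mul_assoc]
      _ = _ := by rw [hc, mul_smul_comm, smul_mul_assoc]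
  have hc0 : c ≠ 0 := by
    rintro rfl
    rw [zero_smul] at h2
    apply hE0
    ext i j
    have h3 := congrFun (congrFun h2 i) j
    rw [Matrix.map_apply, Matrix.zero_apply, map_eq_zero] at h3
    exact h3
  refine ⟨?_, c⁻¹, ?_, fun hev => ?_⟩
  · have h2 := congrArg det h1
    rw [det_mul, det_one, mul_comm] at h2
    exact IsUnit.of_mul_eq_one _ h2
  · conv_rhs => rw [h2]
    rw [smul_smul, inv_mul_cancel₀ hc0, one_smul]
  · have h3 := congrArg det h1
    rw [det_mul, det_one, hcd hev] at h3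
    rw [inv_pow]
    exact eq_inv_of_mul_eq_one_right h3

theorem simO_one {L : Type*} [Field L] [CharZero L] : (1 : Matrix n n L) ∈ simO E L :=
  ⟨by rw [det_one]; exact isUnit_one, 1, by simp, fun _ => by rw [det_one, one_pow]⟩

theorem hz_mul (h : Proj w E π) (a b : ℂ) : hz w π a * hz w π b = hz w π (a * b) := by
  unfold hz
  rw [h.sum_sum]
  apply Finset.sum_congr rfl
  intro p _
  congr 1
  rw [map_mul, mul_pow, mul_pow]
  ring

/-- the Deligne torus lies in `simO` -/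
theorem torus_simO (hV : PolHodge w E V) {T : Matrix n n ℂ} (hT : T ∈ hodgeTorus w V) :
    T ∈ simO E ℂ := by
  obtain ⟨π, hπ, h1, h2, h3⟩ := proj_of hV
  obtain ⟨a, ha, hTa⟩ := hT
  have e : T = hz w π a := by
    apply ind hV.span hV.top
    intro p hp x hx
    rw [hTa p hp x hx]
    unfold hz
    conv_rhs => rw [← h2 p x hx]
    rw [mulVec_mulVec, hπ.mul_sum (fun p => a ^ p * (starRingEnd ℂ a) ^ (w - p)) hp, smul_mulVec,
      h2 p x hx]
    rfl
  obtain ⟨b, hb⟩ := IsAlgClosed.exists_pow_nat_eq a (n := 2) (by norm_num)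
  have hb0 : b ≠ 0 := by
    rintro rfl
    rw [zero_pow two_ne_zero] at hb
    exact ha hb.symm
  obtain ⟨hu, c, hc⟩ := torus_sim hV (hz_torus hπ h2 hb0)
  have e2 : T = hz w π b * hz w π b := by rw [hz_mul hπ, e, ← hb, pow_two]
  obtain ⟨B, hB⟩ : ∃ B, B = hz w π b := ⟨_, rfl⟩
  rw [← hB] at e2 hu hc
  have hFd := det_map (det_ne hV)
  have hdet : B.det ^ 2 = c ^ Fintype.card n := by
    have h4 := congrArg det hc
    rw [det_mul, det_mul, det_transpose, det_smul] at h4
    apply mul_right_cancel₀ hFd.ne_zero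
    rw [← h4]
    ring
  refine ⟨?_, c * c, ?_, fun hev => ?_⟩
  · rw [e2, det_mul]
    exact hu.mul hu
  · rw [e2]
    have : (B * B)ᵀ * E.map (algebraMap ℚ ℂ) * (B * B) =
        Bᵀ * (Bᵀ * E.map (algebraMap ℚ ℂ) * B) * B := by
      rw [transpose_mul]; simp only [mul_assoc]
    rw [this, hc, mul_smul_comm, smul_mul_assoc, hc, smul_smul]
  · rw [e2, det_mul, ← pow_two, hdet, ← pow_two, ← pow_mul, Nat.two_mul_div_two_of_even hev]

/-- the Mumford-Tate group lies in `simO` -/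
theorem mt_subO (hV : PolHodge w E V) (hE0 : E ≠ 0) (K : Type*) [Field K] [CharZero K] :
    mtGroup w V K ⊆ simO E K := by
  intro M hM
  rw [← zeros_simO hE0]
  apply hM
  · rw [IsAlgSubgroup, zeros_simO hE0]
    exact ⟨simO_one, fun X hX Y hY => simO_mul hX hY, fun X hX => simO_inv hE0 hX⟩
  · intro T hT
    rw [zeros_simO hE0]
    exact torus_simO hV hT

/-- a group which contains the special orthogonal group and the scalars -/
theorem simO_mem (hn : Nonempty n) (hG : IsAlgSubgroup I) (hE : E.det ≠ 0)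
    (hsc : ∀ c : ℂ, c ≠ 0 → c • (1 : Matrix n n ℂ) ∈ zeros I ℂ)
    (hso : ∀ g ∈ SAut E, g ∈ zeros I ℂ) : simO E ℂ ⊆ zeros I ℂ := by
  rintro X ⟨hX, c, hc, hcd⟩
  have hc0 : c ≠ 0 := by
    rintro rfl
    rw [zero_smul] at hc
    have h1 : IsUnit (Xᵀ * E.map (algebraMap ℚ ℂ) * X).det := by
      rw [det_mul, det_mul, det_transpose]
      exact (hX.mul (det_map hE)).mul hX
    rw [hc, det_zero] at h1
    exact not_isUnit_zero h1
  have key : ∀ μ : ℂ, μ ≠ 0 → μ ^ 2 = c → (μ⁻¹ • X).det = 1 → X ∈ zeros I ℂ := by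
    intro μ hμ0 hμ hdet
    have h1 : (μ⁻¹ • X) ∈ zeros I ℂ := by
      apply hso
      refine ⟨?_, hdet⟩
      change (μ⁻¹ • X)ᵀ * E.map (algebraMap ℚ ℂ) * (μ⁻¹ • X) = E.map (algebraMap ℚ ℂ)
      rw [transpose_smul, smul_mul_assoc, smul_mul_smul_comm, hc, smul_smul, ← hμ]
      have : μ⁻¹ * μ⁻¹ * μ ^ 2 = 1 := by field_simp
      rw [this, one_smul]
    have h2 := hG.2.1 _ (hsc μ hμ0) _ h1
    rw [smul_mul_smul_comm, mul_inv_cancel₀ hμ0, one_smul, one_mul] at h2
    exact h2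
  obtain ⟨μ, hμ⟩ := IsAlgClosed.exists_pow_nat_eq c (n := 2) (by norm_num)
  have hμ0 : μ ≠ 0 := by
    rintro rfl
    rw [zero_pow two_ne_zero] at hμ
    exact hc0 hμ.symm
  have hdet : X.det ^ 2 = c ^ Fintype.card n := by
    have h4 := congrArg det hc
    rw [det_mul, det_mul, det_transpose, det_smul] at h4
    apply mul_right_cancel₀ (det_map hE).ne_zero
    rw [← h4]
    ring
  by_cases hev : Even (Fintype.card n)
  · apply key μ hμ0 hμ
    rw [det_smul, hcd hev, ← hμ, ← pow_mul, Nat.two_mul_div_two_of_even hev, inv_pow,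
      inv_mul_cancel₀ (pow_ne_zero _ hμ0)]
  · have hodd := Nat.not_even_iff_odd.1 hev
    have h5 : (X.det - μ ^ Fintype.card n) * (X.det + μ ^ Fintype.card n) = 0 := by
      have h6 : c ^ Fintype.card n = μ ^ Fintype.card n * μ ^ Fintype.card n := by
        rw [← hμ, ← pow_mul, ← pow_add, two_mul]
      linear_combination hdet + h6
    rcases mul_eq_zero.1 h5 with h6 | h6
    · apply key μ hμ0 hμ
      rw [det_smul, sub_eq_zero.1 h6, inv_pow, inv_mul_cancel₀ (pow_ne_zero _ hμ0)]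
    · apply key (-μ) (neg_ne_zero.2 hμ0) (by rw [neg_sq, hμ])
      rw [det_smul, eq_neg_of_add_eq_zero_left h6, inv_neg, hodd.neg_pow, inv_pow, neg_mul_neg,
        inv_mul_cancel₀ (pow_ne_zero _ hμ0)]

end Pool.Agent.MT100GO.H46
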