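import Pool.Agent.Helper46_MTGO.Grp
import Pool.Agent.Helper65_MTGO.Inv

/-! MT100GO, module HDF: assembly. -/

set_option autoImplicit false
set_option linter.unusedSectionVars false

namespace Pool.Agent.MT100GO.H46

open MvPolynomial Matrix Module Pool.Agent.Helper78_MT Pool.Agent.Helper3_MT
  Pool.Agent.Helper46_MT Pool.Agent.MT100 Pool.Agent.MT100G Pool.Agent.MT100G.H46

universe u

/-- **HDF** -/
theorem hdf (hN : NrmStmt) (hS : SoiStmt) : HdfStmt.{u} := by
  intro n _ _ w E V hw hV hcard hp hne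
  obtain ⟨π, hπ, h1, h2, h3⟩ := proj_of hV
  have hn : Nonempty n := Fintype.card_pos_iff.1 (by omega)
  have hE := det_ne hV
  have hE0 : E ≠ 0 := by
    rintro rfl
    rw [det_zero] at hE
    exact hE rfl
  have hEs : Eᵀ = E := by
    have := hV.symm
    rwa [Even.neg_one_pow hw, one_smul] at this
  have hFd := det_map hE
  have hFs := symm_map hEs
  obtain ⟨p0, hp0, hVp⟩ := hp
  have hp0w : p0 ≤ w := by
    by_contra hcon
    exact hVp (hV.top p0 (by omega))
  have hw1 : 1 ≤ w := by omega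
  by_contra hno
  apply hne
  intro K _ _
  apply Set.eq_of_subset_of_subset (mt_subO hV hE0 K)
  intro X hX I hG hI
  have hI' : ∀ z : ℂ, z ≠ 0 → hz w π z ∈ zeros I ℂ := fun z hz0 => hI _ (hz_torus hπ h2 hz0)
  obtain ⟨d, Y, c, hc1, hc2, hc3, hc4⟩ := exists_orth (I := I) (E := E)
    (fun X hX hX0 => trace_nd_even hV hw hw1 hπ h1 hG hI' hX hX0)
  have hob : OB I E Y c := ⟨hc1, hc2, hc3, hc4⟩
  have hinv : ∀ G ∈ SAut E, ∀ x : Fin 4 → n → ℂ, tv E Y c (fun j => G *ᵥ x j) = tv E Y c x := by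
    intro G hG' x
    have h5 := Pool.Agent.MT100GO.H65.inv_of_hodgeO hN hV hw hcard ⟨p0, hp0, hVp⟩ (tt E Y c) (by
      intro G hG' p x hx hp
      by_contra hne'
      apply hno
      refine ⟨tt E Y c, fun p x hx hp => ?_, G, hG', p, x, hx, hp, hne'⟩
      rw [tt_val]
      exact hob.hodge hπ hw1 hG hI' h2 hV.top hx (by omega)) G hG' x
    rw [tt_val, tt_val] at h5
    exact h5
  -- the Lie algebra
  have hPhi : Phi' w π ≠ 0 := by
    intro h0
    apply hVp
    rw [eq_bot_iff]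
    intro x hx
    rw [Submodule.mem_bot]
    have h3 := Phi'_piece hπ h2 hp0w hx
    rw [h0, zero_mulVec] at h3
    rcases smul_eq_zero.1 h3.symm with h4 | h4
    · exfalso
      have h5 : (2 : ℂ) * p0 = w := by linear_combination 2 * h4
      have h6 : 2 * p0 = w := by exact_mod_cast h5
      omega
    · exact h4
  have hall := hS n E hEs (isUnit_iff_ne_zero.2 hE) hcard (Ul I E)
    (fun hbot => hPhi (by
      have h4 := Phi'_mem hπ hw1 hG hI'
      rwa [hbot, Submodule.mem_bot] at h4))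
    (fun X hX => hX.2)
    (fun g hg Z hZ => by
      have hgu : IsUnit g.det := by rw [hg.2]; exact isUnit_one
      have e1 : g * g⁻¹ = 1 := mul_nonsing_inv g hgu
      have e2 : g⁻¹ * g = 1 := nonsing_inv_mul g hgu
      have e1t : (g⁻¹)ᵀ * gᵀ = 1 := by rw [← transpose_mul, e1, transpose_one]
      have hgf : gᵀ * E.map (algebraMap ℚ ℂ) * g = E.map (algebraMap ℚ ℂ) := hg.1
      have hg' : (g⁻¹)ᵀ * E.map (algebraMap ℚ ℂ) * g⁻¹ = E.map (algebraMap ℚ ℂ) := by
        calc (g⁻¹)ᵀ * E.map (algebraMap ℚ ℂ) * g⁻¹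
            = (g⁻¹)ᵀ * (gᵀ * E.map (algebraMap ℚ ℂ) * g) * g⁻¹ := by rw [hgf]
          _ = ((g⁻¹)ᵀ * gᵀ) * E.map (algebraMap ℚ ℂ) * (g * g⁻¹) := by simp only [mul_assoc]
          _ = _ := by rw [e1t, e1, one_mul, mul_one]
      have hgd : (g⁻¹).det = 1 := by
        have := congrArg det e1
        rwa [det_mul, hg.2, one_mul, det_one] at this
      exact hob.stable hFd e2 hg' (fun x => hinv g⁻¹ ⟨hg', hgd⟩ x) hZ)
  have hso : ∀ g ∈ SAut E, g ∈ zeros I ℂ := by
    intro g hg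
    refine Pool.Agent.MT100B.H64.so_mem hFs hFd hG.1 hG.2.1 ?_ (fun X hX => (hall X hX).1) hg.1 hg.2
    intro M hM hMp
    refine ⟨hM, fun p hp => ?_⟩
    rw [← pevC]
    apply hMp
    intro g hg
    rw [pevC]
    exact hg.2 p hp
  rw [← zeros_simO hE0] at hX
  refine transfer_gen ?_ K hX
  rw [zeros_simO hE0]
  exact simO_mem hn hG hE (fun c hc => scal_mem hπ hw1 hI' hc) hso

end Pool.Agent.MT100GO.H46
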